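import Mathlib
import Pool.Agent.Helper48.VMRT.Defs
import Pool.Agent.Helper48.VMRT.Generic
import Pool.Agent.Helper87.VM.Out
import Pool.Agent.Helper87.VM.All
import Pool.Agent.Helper87.VM.BS.Fin

/-!
`MP_39dd1a_ag`.  (1) If the variety of (minimal rational) tangents of an irreducible family of
rational curves on a projective manifold is `Z`-isotrivial, then the group of linear automorphisms
of `Z` acts transitively on the irreducible components of `Z`.  (2) If `Z` is nonsingular and
contained in a hyperplane, then there is a projective manifold with a family of minimal rational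
curves whose variety of minimal rational tangents is `Z`-isotrivial if and only if the group of
linear automorphisms of `Z` acts transitively on its irreducible components.

The existence part uses a finite group of linear automorphisms acting transitively on the
components; such a group exists by the theorem of Borel and Serre (`Helper87/VM/BS`), proved there
by reduction modulo powers of a maximal ideal of a finitely generated ring.
-/

set_option autoImplicit false

namespace Pool.Agent.Results.MP_39dd1a_ag.DegenerateModels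

open Pool.Agent.Helper48.VMRT Pool.Agent.Helper87.VM

theorem result :
    (∀ {n N d : ℕ} (X : Set (Fin (N + 1) → ℂ)) (_ : IsProjManifold n N X)
      (H : Set (Coef N d)) (_ : IsFamily X H) {ι : Type} [Finite ι]
      (Z : ι → Set (Fin n → ℂ)) (_ : IsComponents Z) (_ : Isotrivial X H (⋃ i, Z i)),
      ∀ i j : ι, ∃ a : (Fin n → ℂ) ≃ₗ[ℂ] (Fin n → ℂ),
        a '' (⋃ i, Z i) = (⋃ i, Z i) ∧ a '' Z i = Z j) ∧
    (∀ {n : ℕ} {ι : Type} [Finite ι] [Nonempty ι] (Z : ι → Set (Fin n → ℂ)),
      IsComponents Z → SmoothCone (⋃ i, Z i) →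
      (∃ l : (Fin n → ℂ) →ₗ[ℂ] ℂ, l ≠ 0 ∧ ∀ i, ∀ z ∈ Z i, l z = 0) →
      ((∃ (N d : ℕ) (X : Set (Fin (N + 1) → ℂ)) (H : Set (Coef N d)),
        IsProjManifold n N X ∧ IsFamily X H ∧ IsMinimal X H ∧ Isotrivial X H (⋃ i, Z i)) ↔
      ∀ i j : ι, ∃ a : (Fin n → ℂ) ≃ₗ[ℂ] (Fin n → ℂ),
        a '' (⋃ i, Z i) = (⋃ i, Z i) ∧ a '' Z i = Z j)) := by
  refine ⟨?_, ?_⟩
  · intro n N d X hX H hH ι _ Z hZ hiso i j
    exact main hX.closed hH Z hZ hiso i j
  · intro n ι _ _ Z hZ hsm hdeg
    refine ⟨?_, ?_⟩
    · rintro ⟨N, d, X, H, hX, hH, -, hiso⟩ i j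
      exact main hX.closed hH Z hZ hiso i j
    · intro htr
      obtain ⟨G, hfin, hpres, htr'⟩ := bs_finite Z hZ htr
      exact all_FINAL n ι Z hZ hsm hdeg G hfin hpres htr'

end Pool.Agent.Results.MP_39dd1a_ag.DegenerateModels
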