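import Mathlib
import Pool.Agent.Helper48.VMRT.Defs
import Pool.Agent.Helper48.VMRT.Generic
import Pool.Agent.Helper87.VM.Out
import Pool.Agent.Helper87.TC.Out
import Pool.Agent.Helper87.PG.All

/-!
`MP_39dd1a_ag`.  Let `Z` be a set of `2 ^ k ≥ 2` points of `ℙ(ℂⁿ)`, which may span `ℙ(ℂⁿ)`.
There is a projective manifold of dimension `n` with a minimal component of rational curves whose
variety of minimal rational tangents is `Z`-isotrivial if and only if the linear automorphisms of
`Z` act transitively on the points.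

The manifold is a resolution of a quotient of the blow-up of `ℙⁿ` at the points of `Z` by a
`2`-group in `SL(n)`, which contains no reflections; the resolution is built by repeated use of an
explicit resolved quotient by an involution, `(p, q) ↦ (p³ q, p q³)`.
-/

set_option autoImplicit false

namespace Pool.Agent.Results.MP_39dd1a_ag.FiniteModels

open Pool.Agent.Helper48.VMRT Pool.Agent.Helper87.VM Pool.Agent.Helper87.TC
open Pool.Agent.Helper87.PG

theorem result {n : ℕ} (k : ℕ) {ι : Type} [Finite ι] (z : ι → Fin n → ℂ)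
    (hz : ∀ i, z i ≠ 0) (hd : ∀ i j, i ≠ j → ∀ a : ℂ, z i ≠ a • z j) (hk : 1 ≤ k)
    (hcard : Nat.card ι = 2 ^ k) :
    (∃ (N d : ℕ) (X : Set (Fin (N + 1) → ℂ)) (H : Set (Coef N d)),
      IsProjManifold n N X ∧ IsFamily X H ∧ IsMinimalComponent X H ∧
        Isotrivial X H {x | ∃ (i : ι) (a : ℂ), x = a • z i}) ↔
    ∀ i j, ∃ (f : (Fin n → ℂ) ≃ₗ[ℂ] (Fin n → ℂ)) (σ : Equiv.Perm ι), σ i = j ∧
      ∀ l, ∃ a : ℂ, f (z l) = a • z (σ l) := by
  have hP : Pts z := ⟨hz, hd⟩
  have hC := Pool.Agent.Helper92.PG.st_LCO n ι z hP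
  rw [← nec_union z]
  constructor
  · rintro ⟨N, d, X, H, hX, hH, -, hiso⟩ i j
    exact nec_perm z hP hC i j (main hX.closed hH (fun i => ln (z i)) hC hiso i j)
  · intro h
    exact all_FINALG n k ι z hP hk hcard (nec_auto z hz h)

end Pool.Agent.Results.MP_39dd1a_ag.FiniteModels
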