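import Mathlib
import Pool.Agent.Helper48.VMRT.Defs
import Pool.Agent.Helper48.VMRT.Generic
import Pool.Agent.Helper87.VM.Out
import Pool.Agent.Helper87.VM.BS.Fin
import Pool.Agent.Helper87.TC.Out
import Pool.Agent.Helper87.TC.All

/-!
`MP_39dd1a_ag`.  Let `Z` be a nonsingular projective variety in `ℙ(ℂⁿ)`, which may span `ℙ(ℂⁿ)`,
with `2 ^ k ≥ 2` components.  There is a projective manifold of dimension `n` with a minimal
component of rational curves whose variety of minimal rational tangents is `Z`-isotrivial if, and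
when `k = 1` only if, some linear automorphism of `Z` permutes the components cyclically.  In
particular, if `Z` has exactly two components, such a manifold exists if and only if some linear
automorphism of `Z` exchanges them.

The manifold is a resolution of a quotient of the blow-up of `ℙⁿ` along `Z` by a cyclic group of
order a power of `2` acting freely on `ℂⁿ` minus the origin; the resolution is built by repeated
use of an explicit resolved quotient by an involution, `(p, q) ↦ (p³ q, p q³)`.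
-/

set_option autoImplicit false

namespace Pool.Agent.Results.MP_39dd1a_ag.TwoComponents

open Pool.Agent.Helper48.VMRT Pool.Agent.Helper87.VM Pool.Agent.Helper87.TC

theorem result {n : ℕ} (k : ℕ) {ι : Type} [Finite ι] (Z : ι → Set (Fin n → ℂ))
    (hZ : IsComponents Z) (hsm : SmoothCone (⋃ i, Z i)) (hk : 1 ≤ k)
    (hcard : Nat.card ι = 2 ^ k) :
    ((∃ a : (Fin n → ℂ) ≃ₗ[ℂ] (Fin n → ℂ), a '' (⋃ i, Z i) = (⋃ i, Z i) ∧
        ∀ i j, ∃ m : ℕ, (a ^ m : (Fin n → ℂ) ≃ₗ[ℂ] (Fin n → ℂ)) '' Z i = Z j) →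
      ∃ (N d : ℕ) (X : Set (Fin (N + 1) → ℂ)) (H : Set (Coef N d)),
        IsProjManifold n N X ∧ IsFamily X H ∧ IsMinimalComponent X H ∧
          Isotrivial X H (⋃ i, Z i)) ∧
    (k = 1 →
      (∃ (N d : ℕ) (X : Set (Fin (N + 1) → ℂ)) (H : Set (Coef N d)),
        IsProjManifold n N X ∧ IsFamily X H ∧ IsMinimalComponent X H ∧
          Isotrivial X H (⋃ i, Z i)) →
      ∃ a : (Fin n → ℂ) ≃ₗ[ℂ] (Fin n → ℂ), a '' (⋃ i, Z i) = (⋃ i, Z i) ∧
        ∀ i j, ∃ m : ℕ, (a ^ m : (Fin n → ℂ) ≃ₗ[ℂ] (Fin n → ℂ)) '' Z i = Z j) := by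
  refine ⟨?_, ?_⟩
  · rintro ⟨a, ha, htr⟩
    exact all_FINAL2 n k ι Z hZ hsm (all_DISJ n ι Z hZ hsm) hk hcard a ha htr
  · rintro rfl ⟨N, d, X, H, hX, hH, -, hiso⟩
    rw [pow_one] at hcard
    obtain ⟨x, y, hxy, huniv⟩ := Nat.card_eq_two_iff.1 hcard
    have hmem : ∀ i : ι, i = x ∨ i = y := fun i => by
      have h1 : i ∈ ({x, y} : Set ι) := by rw [huniv]; exact Set.mem_univ i
      exact h1
    obtain ⟨a, ha, haxy⟩ := main hX.closed hH Z hZ hiso x y
    obtain ⟨σ, hσ⟩ := bs_perm Z hZ a ha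
    have h01 : σ x = y := by
      have h1 := hσ x
      rw [haxy] at h1
      exact (hZ.irredundant _ _ h1.le).symm
    have h10 : σ y = x := by
      rcases hmem (σ y) with h2 | h2
      · exact h2
      · exact absurd (σ.injective (h01.trans h2.symm)) hxy
    have h0 : ((a ^ 0 : (Fin n → ℂ) ≃ₗ[ℂ] (Fin n → ℂ)) : (Fin n → ℂ) → (Fin n → ℂ)) = id := by
      rw [pow_zero]
      rfl
    refine ⟨a, ha, fun i j => ?_⟩
    by_cases hij : i = j
    · subst hij
      exact ⟨0, by rw [h0, Set.image_id]⟩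
    · refine ⟨1, ?_⟩
      rw [pow_one, hσ i]
      congr 1
      rcases hmem i with rfl | rfl <;> rcases hmem j with rfl | rfl
      · exact absurd rfl hij
      · exact h01
      · exact h10
      · exact absurd rfl hij

end Pool.Agent.Results.MP_39dd1a_ag.TwoComponents
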