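import Mathlib
import Pool.Agent.Helper48.VMRT.Defs
import Pool.Agent.Helper87.VM.Out
import Pool.Agent.Helper87.TC.Out
import Pool.Agent.Helper87.PG.All2

/-!
`MP_39dd1a_ag`.  Let `Z` be a nonsingular projective variety in `ℙ(ℂⁿ)` with `2 ^ k ≥ 2`
components, which may span `ℙ(ℂⁿ)`, whose cone has dimension at most `r`, and let `G` be a finite
group of linear automorphisms of `Z` which is transitive on the components, such that every
element `g ≠ 1` of `G` of order a power of `2` satisfies `dim ker (g - 1) + 2 r ≤ n`.  Then there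
is a projective manifold of dimension `n` with a minimal component of rational curves whose
variety of minimal rational tangents is `Z`-isotrivial.
-/

set_option autoImplicit false

namespace Pool.Agent.Results.MP_39dd1a_ag.TwoGroups

open Pool.Agent.Helper48.VMRT Pool.Agent.Helper87.VM Pool.Agent.Helper87.TC
open Pool.Agent.Helper87.PG

/-- the linear automorphisms of `ℂⁿ` -/
def Lin (n : ℕ) : Type := (Fin n → ℂ) ≃ₗ[ℂ] (Fin n → ℂ)

/-- the group of linear automorphisms of `ℂⁿ` -/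
noncomputable instance instGroupLin (n : ℕ) : Group (Lin n) :=
  inferInstanceAs (Group ((Fin n → ℂ) ≃ₗ[ℂ] (Fin n → ℂ)))

/-- the value of `g` at `x` -/
def app {n : ℕ} (g : (Fin n → ℂ) ≃ₗ[ℂ] (Fin n → ℂ)) (x : Fin n → ℂ) : Fin n → ℂ := g x

/-- the dimension of the space of the vectors fixed by `g` -/
noncomputable def fixDim {n : ℕ} (g : (Fin n → ℂ) ≃ₗ[ℂ] (Fin n → ℂ)) : ℕ :=
  Module.finrank ℂ (LinearMap.ker ((g : (Fin n → ℂ) →ₗ[ℂ] (Fin n → ℂ)) - LinearMap.id))

theorem result {n : ℕ} (k r : ℕ) {ι : Type} [Finite ι] (Z : ι → Set (Fin n → ℂ))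
    (hZ : IsComponents Z) (hsm : SmoothCone (⋃ i, Z i)) (hk : 1 ≤ k)
    (hcard : Nat.card ι = 2 ^ k) (hr : 1 ≤ r) (hdim : DimLE r (⋃ i, Z i))
    (G : Subgroup (Lin n)) (hfin : Finite G)
    (hG : ∀ g ∈ G, app g '' (⋃ i, Z i) = ⋃ i, Z i)
    (htr : ∀ i j, ∃ g ∈ G, app g '' Z i = Z j)
    (hfix : ∀ g ∈ G, g ≠ 1 → (∃ e : ℕ, g ^ 2 ^ e = 1) → fixDim g + 2 * r ≤ n) :
    ∃ (N d : ℕ) (X : Set (Fin (N + 1) → ℂ)) (H : Set (Coef N d)),
      IsProjManifold n N X ∧ IsFamily X H ∧ IsMinimalComponent X H ∧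
        Isotrivial X H (⋃ i, Z i) :=
  all_FINALT n k r ι Z hZ hsm hr hdim hk hcard G hfin hG htr hfix

end Pool.Agent.Results.MP_39dd1a_ag.TwoGroups
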